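import Pool.Agent.Helper37.KD.St.A5

/-! KD Part I, piece B1: entropy dissipation of the jump step -/

namespace KD.I.B1

open Finset KD

variable {G : Type*} [Fintype G] [AddCommGroup G]

/-- symmetrisation of one jump term -/
theorem symm_term (w : G) (b L : G → ℝ) :
    ∑ z, (b (z + (-w)) - b z) * L z = ∑ z, (b z - b (z + w)) * L (z + w) := by
  rw [← sum_shift (fun z => (b (z + (-w)) - b z) * L z) w]
  refine Finset.sum_congr rfl (fun z _ => ?_)
  have : z + w + -w = z := by abel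
  rw [this]

theorem energy_jump {G : Type*} [Fintype G] [AddCommGroup G] {ι : Type*} [Fintype ι]
    (wt : ι → ℝ) (ℓ : ι → G) (ng : ι → ι) (b : ι → G → ℝ) (u : G → ℝ) (lam ε : ℝ)
    (hlam : 0 < lam) (hε : 0 ≤ ε) (hwt : ∀ i, 0 ≤ wt i) (hng : ∀ i, ng (ng i) = i)
    (hl : ∀ i, ℓ (ng i) = - ℓ i) (hw : ∀ i, wt (ng i) = wt i) (hb : ∀ i, b (ng i) = b i)
    (hu : ∀ z, 0 < u z) (hb1 : ∀ i z, lam * u z ≤ b i z)
    (hpos : ∀ z, 0 ≤ u z + ε * ∑ i, wt i * (b i (z + ℓ i) - b i z)) :
    Ht (fun z => u z + ε * ∑ i, wt i * (b i (z + ℓ i) - b i z)) ≤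
      Ht u - ε * (lam / 4) * (∑ i, wt i *
          ∑ z, (u (z + ℓ i) - u z) * (Real.log (u (z + ℓ i)) - Real.log (u z)))
        + ε / (4 * lam) * (∑ i, wt i *
          ∑ z, min (u z) (u (z + ℓ i)) * (b i (z + ℓ i) / u (z + ℓ i) - b i z / u z) ^ 2)
        + ∑ z, (ε * ∑ i, wt i * (b i (z + ℓ i) - b i z)) ^ 2 / u z := by
  set D : G → ℝ := fun z => ∑ i, wt i * (b i (z + ℓ i) - b i z) with hD
  have hpos' : ∀ z, 0 ≤ u z + ε * D z := hpos
  -- pointwise E2 and summation
  have h1 : Ht (fun z => u z + ε * D z) ≤ Ht u + ∑ z, ε * D z + ∑ z, ε * D z * Real.log (u z)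
      + ∑ z, (ε * D z) ^ 2 / u z := by
    unfold Ht
    rw [← Finset.sum_add_distrib, ← Finset.sum_add_distrib, ← Finset.sum_add_distrib]
    refine Finset.sum_le_sum (fun z _ => ?_)
    have := E2 (u z) (u z + ε * D z) (hu z) (hpos' z)
    have e : u z + ε * D z - u z = ε * D z := by ring
    rw [e] at this
    linarith
  have h2 : ∑ z, ε * D z = 0 := by
    rw [← Finset.mul_sum]
    have : ∑ z, D z = 0 := by
      rw [hD, Finset.sum_comm]
      refine Finset.sum_eq_zero (fun i _ => ?_)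
      rw [← Finset.mul_sum, Finset.sum_sub_distrib, sum_shift (fun z => b i z) (ℓ i), sub_self,
        mul_zero]
    rw [this, mul_zero]
  -- the logarithmic term
  have h3 : ∑ z, D z * Real.log (u z) =
      ∑ i, wt i * ∑ z, (b i (z + ℓ i) - b i z) * Real.log (u z) := by
    rw [hD]
    simp only [Finset.sum_mul, Finset.mul_sum]
    rw [Finset.sum_comm]
    refine Finset.sum_congr rfl (fun i _ => Finset.sum_congr rfl (fun z _ => by ring))
  have hngb : Function.Bijective ng := (show Function.Involutive ng from hng).bijective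
  have h4 : ∑ i, wt i * ∑ z, (b i (z + ℓ i) - b i z) * Real.log (u z) =
      ∑ i, wt i * ∑ z, (b i z - b i (z + ℓ i)) * Real.log (u (z + ℓ i)) := by
    have := Fintype.sum_bijective ng hngb
      (fun i => wt (ng i) * ∑ z, (b (ng i) (z + ℓ (ng i)) - b (ng i) z) * Real.log (u z))
      (fun i => wt i * ∑ z, (b i (z + ℓ i) - b i z) * Real.log (u z)) (fun i => rfl)
    rw [← this]
    refine Finset.sum_congr rfl (fun i _ => ?_)
    rw [hw, hb, hl, symm_term (ℓ i) (b i) (fun z => Real.log (u z))]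
  have h5 : ∑ z, D z * Real.log (u z) = ∑ i, wt i * ∑ z, -(1 / 2) *
      ((b i (z + ℓ i) - b i z) * (Real.log (u (z + ℓ i)) - Real.log (u z))) := by
    have e : ∑ i, wt i * ∑ z, -(1 / 2) *
        ((b i (z + ℓ i) - b i z) * (Real.log (u (z + ℓ i)) - Real.log (u z))) =
        (1 / 2) * (∑ i, wt i * ∑ z, (b i (z + ℓ i) - b i z) * Real.log (u z)) +
        (1 / 2) * (∑ i, wt i * ∑ z, (b i z - b i (z + ℓ i)) * Real.log (u (z + ℓ i))) := by
      rw [Finset.mul_sum, Finset.mul_sum, ← Finset.sum_add_distrib]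
      refine Finset.sum_congr rfl (fun i _ => ?_)
      have : ∑ z, -(1 / 2) *
          ((b i (z + ℓ i) - b i z) * (Real.log (u (z + ℓ i)) - Real.log (u z))) =
          (1 / 2) * (∑ z, (b i (z + ℓ i) - b i z) * Real.log (u z)) +
          (1 / 2) * (∑ z, (b i z - b i (z + ℓ i)) * Real.log (u (z + ℓ i))) := by
        rw [Finset.mul_sum, Finset.mul_sum, ← Finset.sum_add_distrib]
        exact Finset.sum_congr rfl (fun z _ => by ring)
      rw [this]
      ring
    rw [e, ← h4, ← h3]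
    ring
  -- E1
  have h6 : ∑ z, D z * Real.log (u z) ≤ -(lam / 4) * (∑ i, wt i *
          ∑ z, (u (z + ℓ i) - u z) * (Real.log (u (z + ℓ i)) - Real.log (u z)))
        + 1 / (4 * lam) * (∑ i, wt i *
          ∑ z, min (u z) (u (z + ℓ i)) * (b i (z + ℓ i) / u (z + ℓ i) - b i z / u z) ^ 2) := by
    rw [h5, Finset.mul_sum, Finset.mul_sum, ← Finset.sum_add_distrib]
    refine Finset.sum_le_sum (fun i _ => ?_)
    have e : -(lam / 4) * (wt i *
          ∑ z, (u (z + ℓ i) - u z) * (Real.log (u (z + ℓ i)) - Real.log (u z)))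
        + 1 / (4 * lam) * (wt i *
          ∑ z, min (u z) (u (z + ℓ i)) * (b i (z + ℓ i) / u (z + ℓ i) - b i z / u z) ^ 2) =
        wt i * ∑ z, (-(lam / 4) *
          ((u (z + ℓ i) - u z) * (Real.log (u (z + ℓ i)) - Real.log (u z))) + 1 / (4 * lam) *
          (min (u z) (u (z + ℓ i)) * (b i (z + ℓ i) / u (z + ℓ i) - b i z / u z) ^ 2)) := by
      rw [Finset.sum_add_distrib, ← Finset.mul_sum, ← Finset.mul_sum]
      ring
    rw [e]
    refine mul_le_mul_of_nonneg_left (Finset.sum_le_sum (fun z _ => ?_)) (hwt i)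
    have hx := hu z
    have hy := hu (z + ℓ i)
    have q := E1 (u z) (u (z + ℓ i)) (b i z / u z) (b i (z + ℓ i) / u (z + ℓ i)) lam hx hy hlam
      (by rw [le_div_iff₀ hx]; exact hb1 i z) (by rw [le_div_iff₀ hy]; exact hb1 i _)
    rw [div_mul_cancel₀ _ hx.ne', div_mul_cancel₀ _ hy.ne'] at q
    have e2 : 1 / (4 * lam) *
          (min (u z) (u (z + ℓ i)) * (b i (z + ℓ i) / u (z + ℓ i) - b i z / u z) ^ 2) =
        (1 / 2) * (min (u z) (u (z + ℓ i)) *
          (b i (z + ℓ i) / u (z + ℓ i) - b i z / u z) ^ 2 / (2 * lam)) := by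
      field_simp
      ring
    rw [e2]
    linarith
  have h7 : ∑ z, ε * D z * Real.log (u z) = ε * ∑ z, D z * Real.log (u z) := by
    rw [Finset.mul_sum]
    exact Finset.sum_congr rfl (fun z _ => by ring)
  have h8 := mul_le_mul_of_nonneg_left h6 hε
  have e3 : ε / (4 * lam) = ε * (1 / (4 * lam)) := by ring
  rw [h2, h7] at h1
  rw [e3]
  nlinarith [h1, h8]

end KD.I.B1
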