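import Pool.Agent.Helper37.KD.St.F4
import Pool.Agent.Helper37.KD.St.F5
import Pool.Agent.Helper37.KD.St.B2

/-! KD Part I, piece F6: drift of one step -/

namespace KD.I.F6

open Finset KD

/-- triangle inequality in `l²` of a finite type -/
theorem l2_tri {G : Type*} [Fintype G] (a b : G → ℝ) :
    √(∑ z, (a z + b z) ^ 2) ≤ √(∑ z, a z ^ 2) + √(∑ z, b z ^ 2) := by
  have h := norm_add_le (WithLp.toLp 2 a) (WithLp.toLp 2 b)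
  rw [EuclideanSpace.norm_eq, EuclideanSpace.norm_eq, EuclideanSpace.norm_eq] at h
  simpa using h

theorem Am_Ap {d N : ℕ} (z : GG d N) : Am 1 (Ap 1 z) = z := by
  simp [Am, Ap]

theorem Ap_Am {d N : ℕ} (z : GG d N) : Ap 1 (Am 1 z) = z := by
  simp [Am, Ap]

theorem sum_Am {d N : ℕ} [NeZero N] (f : GG d N → ℝ) : ∑ z, f (Am 1 z) = ∑ z, f z :=
  Fintype.sum_equiv ⟨Am 1, Ap 1, Ap_Am, Am_Ap⟩ _ _ (fun _ => rfl)

/-- I.5 one step -/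
theorem drift_step (s lam Lam c0 C0 C1 : ℝ) (d : ℕ) (hd : 1 ≤ d) (hs : 0 < s) (hs1 : s < 1)
    (hlam : 0 < lam) (hLam : lam ≤ Lam) (hC0 : 0 < C0) (hC1 : 0 < C1) : ∃ C : ℝ, 0 < C ∧
    ∀ K : ℕ, ∃ CK ε0 : ℝ, 0 < CK ∧ 0 < ε0 ∧
    ∀ (E : Env d s c0 C0 C1), E.K = K → E.ε ≤ ε0 →
    ∀ (M0 : ℝ) (a : ℕ → E.Θ → E.G → ℝ), E.S.Coef lam Lam M0 a → ∀ μ, IsP μ → ∀ k ≤ K,
    ∀ ψ : E.G → ℝ, (∀ z, 0 ≤ ψ z) →
      √(∑ z, (√(lev E.q (E.step a μ) (k + 1) z) - ψ (Am 1 z)) ^ 2) ≤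
        √(∑ z, (√(lev E.q μ (k + 1) z) - ψ z) ^ 2 + E.ε * Lam * E.Ik μ k)
        + (C * E.ε / √(tim s k) * √(E.Ik μ k + E.Ek a μ k
            + if k = 0 then 0 else E.Ik μ (k - 1) + E.Ek a μ (k - 1))
          + C / E.R k * ∑ j ∈ range (k + 1), √(E.Yk (E.step a μ) j) + CK * E.ε ^ 2) := by
  obtain ⟨C4, hC4, H4⟩ := drift_jump s lam Lam c0 C0 C1 d hd hs hs1 hlam hLam hC0
  obtain ⟨C5, hC5, H5⟩ := drift_transport s c0 C0 C1 d hs hC1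
  refine ⟨C4 + C5, by positivity, fun K => ?_⟩
  obtain ⟨e4, he4, H4⟩ := H4 K
  obtain ⟨CK, hCK, H5⟩ := H5 K
  obtain ⟨e2, he2, H2⟩ := step_isP s Lam c0 C0 C1 d hs (hlam.trans_le hLam) hC0 K
  refine ⟨CK, min e4 e2, hCK, lt_min he4 he2, fun E hEK hE M0 a ha μ hμ k hk ψ hψ => ?_⟩
  have hν := (H2 E hEK (hE.trans (min_le_right _ _)) lam M0 a hlam ha μ hμ).2
  have h4 := H4 E hEK (hE.trans (min_le_left _ _)) M0 a ha μ hμ k hk ψ hψ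
  have h5 := H5 E hEK (E.step a μ) hν k hk
  have e1 : (fun y => E.step a μ (Ap 1 y)) = E.Jop a μ := by
    funext y
    change E.S.Jop s E.ε a μ (Am 1 (Ap 1 y)) = _
    rw [Am_Ap]
    rfl
  rw [e1] at h5
  have h6 := l2_tri
    (fun z => √(lev E.q (E.step a μ) (k + 1) z) - √(lev E.q (E.Jop a μ) (k + 1) (Am 1 z)))
    (fun z => √(lev E.q (E.Jop a μ) (k + 1) (Am 1 z)) - ψ (Am 1 z))
  simp only [sub_add_sub_cancel] at h6
  have h7 := sum_Am (fun z => (√(lev E.q (E.Jop a μ) (k + 1) z) - ψ z) ^ 2)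
  rw [h7] at h6
  have hR := E.R_pos k
  have hε := E.hε
  have h8 : C4 * E.ε / √(tim s k) * √(E.Ik μ k + E.Ek a μ k
            + if k = 0 then 0 else E.Ik μ (k - 1) + E.Ek a μ (k - 1)) ≤
      (C4 + C5) * E.ε / √(tim s k) * √(E.Ik μ k + E.Ek a μ k
            + if k = 0 then 0 else E.Ik μ (k - 1) + E.Ek a μ (k - 1)) := by
    gcongr
    linarith
  have h9 : C5 / E.R k * ∑ j ∈ range (k + 1), √(E.Yk (E.step a μ) j) ≤
      (C4 + C5) / E.R k * ∑ j ∈ range (k + 1), √(E.Yk (E.step a μ) j) := by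
    gcongr
    linarith
  linarith

end KD.I.F6
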