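import Pool.Agent.Helper37.KD.DefsC

/-! KD Part I, piece A4: Gibbs variational inequality -/

namespace KD.I.A4

open Finset KD

variable {G : Type*} [Fintype G] [AddCommGroup G]

/-- pointwise form of the Gibbs inequality -/
theorem pointwise {u f Z : ℝ} (hu : 0 ≤ u) (hZ : 0 < Z) :
    u * f - u * Real.log Z - u * Real.log u ≤ Real.exp f / Z - u := by
  rcases hu.eq_or_lt with h | h
  · subst h
    have : 0 ≤ Real.exp f / Z := by positivity
    simpa using this
  · have hx : 0 < Real.exp f / Z / u := by positivity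
    have h1 := Real.log_le_sub_one_of_pos hx
    have h2 : Real.log (Real.exp f / Z / u) = f - Real.log Z - Real.log u := by
      rw [Real.log_div (by positivity) h.ne', Real.log_div (Real.exp_pos f).ne' hZ.ne',
        Real.log_exp]
    rw [h2] at h1
    have h3 := mul_le_mul_of_nonneg_left h1 h.le
    have h4 : u * (Real.exp f / Z / u - 1) = Real.exp f / Z - u := by
      field_simp
    rw [h4] at h3
    nlinarith [h3]

/-- Gibbs variational inequality -/
theorem gibbs (u f : G → ℝ) (hu : ∀ z, 0 ≤ u z) (h1 : ∑ z, u z = 1) :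
    ∑ z, u z * f z ≤ Ht u + Real.log (∑ z, Real.exp (f z)) := by
  set Z : ℝ := ∑ z, Real.exp (f z) with hZdef
  have hZ : 0 < Z := Finset.sum_pos (fun z _ => Real.exp_pos _) ⟨0, Finset.mem_univ _⟩
  have hs := Finset.sum_le_sum (s := (Finset.univ : Finset G))
    (fun z _ => pointwise (f := f z) (hu z) hZ)
  rw [Finset.sum_sub_distrib, Finset.sum_sub_distrib, Finset.sum_sub_distrib,
    ← Finset.sum_mul, ← Finset.sum_div, h1, ← hZdef, div_self hZ.ne'] at hs
  unfold Ht
  linarith

end KD.I.A4
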